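import Pool.Agent.TH88.HT.Fin

/-!
# A non-amenable group with a faithful action that is `n`-Liouville for every `n`

Negative answer to Q1 of MP_2579e4_al.  The group `G` consists of the permutations of the free
group `F` of rank two which agree with a left translation outside a finite set.  It is generated by
four elements, it maps onto `F`, hence is not amenable, and it contains all permutations of `F`
with finite support, so that it acts highly transitively on `F`.  One measure `μ` works for all
`n`: with probability `2 ^ (-(k+1))` translate by a random element of the ball of radius one and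
then apply a random permutation of the ball of radius `6 ^ k`.
-/

set_option autoImplicit false

namespace Pool.Agent.Results.MP_2579e4_al.HighlyTransitive

/-- The group `G` is amenable: it has a finitely additive left invariant probability measure
defined on all subsets. -/
def Amenable (G : Type) [Group G] : Prop :=
  ∃ m : Set G → ℝ, (∀ A, 0 ≤ m A) ∧ m Set.univ = 1 ∧
    (∀ A B, Disjoint A B → m (A ∪ B) = m A + m B) ∧
    ∀ (g : G) (A : Set G), m ((fun x => g * x) '' A) = m A

/-- `μ` is a non-degenerate probability measure on the countable group `G`: its values are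
non-negative with sum `1` and its support generates `G` as a semigroup. -/
def NonDegenerate {G : Type} [Group G] (μ : G → ℝ) : Prop :=
  (∀ g, 0 ≤ μ g) ∧ HasSum μ 1 ∧ Subsemigroup.closure {g | μ g ≠ 0} = ⊤

open Classical in
/-- The transition probability `p_μ(y, z)`, the sum of `μ g` over all `g` with `g y = z`. -/
noncomputable def prob {G Y : Type} [Group G] [MulAction G Y] (μ : G → ℝ) (y z : Y) : ℝ :=
  ∑' g : G, if g • y = z then μ g else 0

/-- The action of `G` on `Y` is `μ`-Liouville: every bounded `μ`-harmonic function on `Y` is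
constant. -/
def Liouville {G : Type} [Group G] (μ : G → ℝ) (Y : Type) [MulAction G Y] : Prop :=
  ∀ f : Y → ℝ, (∃ C, ∀ y, |f y| ≤ C) → (∀ y, f y = ∑' z, f z * prob μ y z) →
    ∀ y z, f y = f z

open Pool.Agent.TH88.HT

/-- The measure. -/
noncomputable def mu : AlmostTrans F2 → ℝ := push (gm S2) (wt S2)

theorem mu_nonneg (g : AlmostTrans F2) : 0 ≤ mu g :=
  push_nonneg (gm S2) (wt S2) (fun i => (wt_pos S2 one_mem_S2 i).le) g

theorem mu_sum : HasSum mu 1 :=
  hasSum_push_one (gm S2) (wt S2) (wt_sum S2 one_mem_S2) fun i => (wt_pos S2 one_mem_S2 i).le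

theorem mu_gen : Subsemigroup.closure {g | mu g ≠ 0} = ⊤ := by
  rw [eq_top_iff]
  intro g _
  refine Subsemigroup.closure_mono ?_ (gen_semigroup g)
  rintro _ ⟨i, rfl⟩
  exact (push_pos (gm S2) (wt S2) (wt_sum S2 one_mem_S2).summable
    (fun i => (wt_pos S2 one_mem_S2 i).le) i (wt_pos S2 one_mem_S2 i)).ne'

theorem harmonic_iff {n : ℕ} (f : Set.powersetCard F2 n → ℝ) (C : ℝ) (hC : ∀ y, |f y| ≤ C)
    (y : Set.powersetCard F2 n) :
    ∑' z, f z * prob mu y z = ∑' i, wt S2 i * f (gm S2 i • y) := by
  have h1 := hasSum_push (fun g : AlmostTrans F2 => g • y) mu mu_sum.summable mu_nonneg f C hC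
  have h2 := hasSum_push (gm S2) (wt S2) (wt_sum S2 one_mem_S2).summable
    (fun i => (wt_pos S2 one_mem_S2 i).le) (fun g => f (g • y)) C (fun g => hC _)
  have h3 : ∑' g, mu g * f (g • y) = ∑' i, wt S2 i * f (gm S2 i • y) := by
    rw [← h2.tsum_eq]
    exact tsum_congr fun g => mul_comm _ _
  rw [← h3]
  exact h1.tsum_eq

/-- There are a finitely generated (in particular countable) group `G` which is not amenable and a
faithful action of `G` on an infinite set `X` which is `n`-Liouville for every `n ≥ 1`: there is
even one non-degenerate probability measure `μ` on `G` such that for every `n ≥ 1` every bounded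
`μ`-harmonic function on the set of `n`-element subsets of `X` is constant. -/
theorem result : ∃ (G : Type) (_ : Group G) (X : Type) (_ : DecidableEq X) (_ : MulAction G X),
    Countable G ∧ Group.FG G ∧ ¬ Amenable G ∧ Infinite X ∧ FaithfulSMul G X ∧
      ∃ μ : G → ℝ, NonDegenerate μ ∧ ∀ n : ℕ, 1 ≤ n → Liouville μ (Set.powersetCard X n) := by
  refine ⟨AlmostTrans F2, inferInstance, F2, inferInstance, inferInstance, ?_, fg, ?_,
    inferInstance, inferInstance, mu, ⟨mu_nonneg, mu_sum, mu_gen⟩, ?_⟩
  · obtain ⟨T, hT, φ, hφ⟩ := (Group.fg_iff_exists_freeGroup_hom_surjective_finite).1 fg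
    have : Countable T := Finite.to_countable
    exact hφ.countable
  · rintro ⟨m, h0, h1, h2, h3⟩
    exact not_amenable qq qq_surj m h0 h1 h2 h3
  · rintro n - f ⟨C, hC⟩ hf y z
    refine liouville S2 one_mem_S2 S2_exhaust f C hC (fun y => ?_) y z
    rw [← harmonic_iff f C hC y]
    exact hf y

end Pool.Agent.Results.MP_2579e4_al.HighlyTransitive
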